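import Pool.Agent.helper27.TD.Spec

/-!
# MP_16912e_nt: row td:PV
-/

set_option autoImplicit false

namespace Pool.Agent.helper27.TD

open Finset Polynomial Pool.Agent.helper47.RA

theorem PV_hev_map {R S : Type} [CommRing R] [CommRing S] (φ : R →+* S) (f : ℕ) (F : ℤ[X])
    (x y : R) : φ (hev f F x y) = hev f F (φ x) (φ y) := by
  unfold hev
  rw [map_sum]
  refine Finset.sum_congr rfl fun i _ => ?_
  rw [map_mul, map_mul, map_pow, map_pow, map_intCast]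

theorem PV_hev_val {K : Type} [Field K] [CharZero K] (b : ℕ) (A : ℤ[X]) (hA : A.natDegree ≤ b)
    (τ : ℚ) (s : K) : hev b A ((τ : K) * s) s = s ^ b * ((ev A τ : ℚ) : K) := by
  unfold hev ev
  have h1 : (A.map (Int.castRingHom ℚ)).natDegree < b + 1 :=
    lt_of_le_of_lt (natDegree_map_le.trans hA) (Nat.lt_succ_self b)
  rw [eval_eq_sum_range' h1, Rat.cast_sum, Finset.mul_sum]
  refine Finset.sum_congr rfl fun i hi => ?_
  have h2 : i ≤ b := Nat.lt_succ_iff.1 (Finset.mem_range.1 hi)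
  rw [coeff_map, mul_pow]
  push_cast
  have h3 : s ^ b = s ^ i * s ^ (b - i) := by rw [← pow_add]; congr 1; omega
  rw [h3]
  simp only [eq_intCast, Rat.cast_intCast]
  ring

theorem PV_val_of_norm {q : ℕ} [Fact q.Prime] {x : ℚ_[q]} (hx : x ≠ 0) (h : ‖x‖ = 1) :
    x.valuation = 0 := by
  rw [Padic.norm_eq_zpow_neg_valuation hx] at h
  have hq : (1 : ℝ) < q := by exact_mod_cast (Fact.out : q.Prime).one_lt
  have h1 : (q : ℝ) ^ (-x.valuation) = (q : ℝ) ^ (0 : ℤ) := by rw [h, zpow_zero]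
  have h2 := zpow_right_injective₀ (by linarith) (ne_of_gt hq) h1
  omega

/-- the square root of `D` -/
theorem PV_rho {q : ℕ} [Fact q.Prime] {D k u v : ℤ} {q' : ℕ} (hq3 : 3 ≤ q)
    (hu : ¬ (q : ℤ) ∣ u) (hk : ¬ (q : ℤ) ∣ k)
    (h : u ^ 2 - (q : ℤ) * q' * v ^ 2 = D * k ^ 2) :
    ∃ ρ : ℚ_[q], ρ ^ 2 = D ∧ ‖(u : ℚ_[q]) + k * ρ‖ = 1 := by
  have hq : q.Prime := Fact.out
  have hcop : ∀ n : ℤ, ¬ (q : ℤ) ∣ n → ‖(n : ℤ_[q])‖ = 1 := by
    intro n hn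
    have h1 := PadicInt.norm_le_one (n : ℤ_[q])
    by_contra h2
    exact hn ((PadicInt.norm_int_lt_one_iff_dvd n).1 (lt_of_le_of_ne h1 h2))
  have h2n : ¬ (q : ℤ) ∣ 2 := by
    intro h2
    have := Int.le_of_dvd (by norm_num) h2
    omega
  have hkU := PadicInt.isUnit_iff.2 (hcop k hk)
  obtain ⟨k', hk'⟩ := hkU.exists_right_inv
  have hk'n : ‖k'‖ = 1 := by
    have h1 : ‖(k : ℤ_[q]) * k'‖ = 1 := by rw [hk', norm_one]
    rw [norm_mul, hcop k hk, one_mul] at h1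
    exact h1
  have e1 : ((u : ℤ_[q]) * k') ^ 2 - (D : ℤ_[q]) = (q : ℤ_[q]) * ((q' : ℤ_[q]) * v ^ 2 * k' ^ 2) := by
    have h1 : ((u : ℤ_[q])) ^ 2 - (q : ℤ_[q]) * q' * v ^ 2 = D * k ^ 2 := by exact_mod_cast h
    have h2 : (D : ℤ_[q]) = D * ((k : ℤ_[q]) * k') ^ 2 := by rw [hk', one_pow, mul_one]
    rw [h2]
    linear_combination k' ^ 2 * h1
  have hnorm : ‖(Polynomial.aeval ((u : ℤ_[q]) * k')) (X ^ 2 - C D : ℤ[X])‖ <
      ‖(Polynomial.aeval ((u : ℤ_[q]) * k')) (derivative (X ^ 2 - C D : ℤ[X]))‖ ^ 2 := by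
    have a1 : (Polynomial.aeval ((u : ℤ_[q]) * k')) (X ^ 2 - C D : ℤ[X]) =
        ((u : ℤ_[q]) * k') ^ 2 - (D : ℤ_[q]) := by simp
    have a2 : (Polynomial.aeval ((u : ℤ_[q]) * k')) (derivative (X ^ 2 - C D : ℤ[X])) =
        ((2 : ℤ) : ℤ_[q]) * ((u : ℤ_[q]) * k') := by
      have : derivative (X ^ 2 - C D : ℤ[X]) = C 2 * X := by
        rw [derivative_sub, derivative_C, sub_zero, derivative_X_pow]
        norm_num
      rw [this, map_mul, aeval_C, aeval_X]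
      rfl
    rw [a1, a2, e1, norm_mul, norm_mul (((2 : ℤ) : ℤ_[q])), hcop 2 h2n, norm_mul (u : ℤ_[q]),
      hcop u hu, hk'n]
    have b1 : ‖(q : ℤ_[q])‖ < 1 := by
      have := (PadicInt.norm_int_lt_one_iff_dvd (p := q) (q : ℤ)).2 dvd_rfl
      exact_mod_cast this
    have b2 := PadicInt.norm_le_one ((q' : ℤ_[q]) * (v : ℤ_[q]) ^ 2 * k' ^ 2)
    have b3 := norm_nonneg (q : ℤ_[q])
    have b4 := norm_nonneg ((q' : ℤ_[q]) * (v : ℤ_[q]) ^ 2 * k' ^ 2)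
    nlinarith
  obtain ⟨ρ₀, hρ₀, -⟩ := hensels_lemma hnorm
  have e2 : ρ₀ ^ 2 = (D : ℤ_[q]) := by
    have a1 : (Polynomial.aeval ρ₀) (X ^ 2 - C D : ℤ[X]) = ρ₀ ^ 2 - (D : ℤ_[q]) := by simp
    rw [a1] at hρ₀
    exact sub_eq_zero.1 hρ₀
  have h2u : ‖((u : ℤ_[q]) + k * ρ₀) + ((u : ℤ_[q]) + k * (-ρ₀))‖ = 1 := by
    have : ((u : ℤ_[q]) + k * ρ₀) + ((u : ℤ_[q]) + k * (-ρ₀)) = ((2 : ℤ) : ℤ_[q]) * u := by
      push_cast; ring
    rw [this, norm_mul, hcop 2 h2n, hcop u hu, one_mul]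
  have key : ∃ ρ : ℤ_[q], ρ ^ 2 = (D : ℤ_[q]) ∧ ‖(u : ℤ_[q]) + (k : ℤ_[q]) * ρ‖ = 1 := by
    by_cases h1 : ‖(u : ℤ_[q]) + k * ρ₀‖ = 1
    · exact ⟨ρ₀, e2, h1⟩
    · refine ⟨-ρ₀, by rw [neg_sq, e2], ?_⟩
      by_contra h3
      have h4 := lt_of_le_of_ne (PadicInt.norm_le_one _) h1
      have h5 := lt_of_le_of_ne (PadicInt.norm_le_one _) h3
      have h6 := PadicInt.nonarchimedean ((u : ℤ_[q]) + (k : ℤ_[q]) * ρ₀) ((u : ℤ_[q]) + (k : ℤ_[q]) * (-ρ₀))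
      rw [h2u] at h6
      have h7 := max_lt h4 h5
      linarith
  obtain ⟨ρ, h1, h3⟩ := key
  refine ⟨(ρ : ℚ_[q]), ?_, ?_⟩
  · have := congrArg (fun x : ℤ_[q] => (x : ℚ_[q])) h1
    simpa using this
  · rw [PadicInt.norm_def] at h3
    simpa using h3

theorem PV : PV_stmt := by
  intro q q' d b D k P A B κ β' hq hq' hqq hq3 hb hC hO hv hD hk hg hN hE hK
  have : Fact q.Prime := ⟨hq⟩
  set g : ℤ := P 0 with hgdef
  set n : ℤ := P 1 with hndef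
  set u : ℤ := P 2 with hudef
  set v : ℤ := P 3 with hvdef
  set z : ℤ := (q : ℤ) * q' with hz
  have hu : ¬ (q : ℤ) ∣ u := by
    intro h
    have h1 : (q : ℤ) ∣ D * k ^ 2 := by
      rw [← hN]
      refine dvd_sub (dvd_pow h two_ne_zero) ?_
      rw [hz, mul_assoc]
      exact dvd_mul_right _ _
    have hpr : Prime (q : ℤ) := Nat.prime_iff_prime_int.1 hq
    rcases hpr.dvd_or_dvd h1 with h2 | h2
    · exact hD h2
    · exact hk (hpr.dvd_of_dvd_pow h2)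
  obtain ⟨ρ, hρ, hρn⟩ := PV_rho (q' := q') (v := v) hq3 hu hk hN
  -- nonzero elements
  have hq0 : (q : ℚ_[q]) ≠ 0 := by exact_mod_cast hq.ne_zero
  have hq'0 : (q' : ℚ_[q]) ≠ 0 := by exact_mod_cast hq'.ne_zero
  have hzc : ((z : ℤ) : ℚ_[q]) = (q : ℚ_[q]) * q' := by rw [hz]; push_cast; rfl
  have hz0 : ((z : ℤ) : ℚ_[q]) ≠ 0 := by rw [hzc]; exact mul_ne_zero hq0 hq'0
  have hv0 : ((v : ℤ) : ℚ_[q]) ≠ 0 := by exact_mod_cast hv
  have hk0' : k ≠ 0 := fun h => hk (by rw [h]; exact dvd_zero _)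
  have hk0 : ((k : ℤ) : ℚ_[q]) ≠ 0 := by exact_mod_cast hk0'
  have hg0' : g ≠ 0 := fun h => hg (by rw [h]; exact dvd_zero _)
  have hg0 : ((g : ℤ) : ℚ_[q]) ≠ 0 := by exact_mod_cast hg0'
  have h20 : (2 : ℚ_[q]) ≠ 0 := two_ne_zero
  have hnormint : ∀ m : ℤ, ¬ (q : ℤ) ∣ m → ‖((m : ℤ) : ℚ_[q])‖ = 1 := by
    intro m hm
    have h1 : ‖((m : ℤ) : ℚ_[q])‖ ≤ 1 := Padic.norm_int_le_one m
    by_contra h2
    exact hm (Padic.norm_intCast_lt_one_iff.1 (lt_of_le_of_ne h1 h2))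
  have h2n : ¬ (q : ℤ) ∣ 2 := by
    intro h2
    have := Int.le_of_dvd (by norm_num) h2
    omega
  have v2 : (2 : ℚ_[q]).valuation = 0 := by
    refine PV_val_of_norm h20 ?_
    have := hnormint 2 h2n
    exact_mod_cast this
  have vk : ((k : ℤ) : ℚ_[q]).valuation = 0 := PV_val_of_norm hk0 (hnormint k hk)
  have vg : ((g : ℤ) : ℚ_[q]).valuation = 0 := PV_val_of_norm hg0 (hnormint g hg)
  have vq' : (q' : ℚ_[q]).valuation = 0 := by
    refine PV_val_of_norm hq'0 ?_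
    have h1 : ¬ (q : ℤ) ∣ ((q' : ℕ) : ℤ) := by
      intro h
      exact hqq ((Nat.prime_dvd_prime_iff_eq hq hq').1 (by exact_mod_cast h))
    have := hnormint _ h1
    exact_mod_cast this
  have vz : ((z : ℤ) : ℚ_[q]).valuation = 1 := by
    rw [hzc, Padic.valuation_mul hq0 hq'0, vq', Padic.valuation_p, add_zero]
  set ν : ℤ := ((v : ℤ) : ℚ_[q]).valuation with hν
  -- the two factors
  set a : ℚ_[q] := (u : ℚ_[q]) + k * ρ with ha
  set a' : ℚ_[q] := (u : ℚ_[q]) - k * ρ with ha'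
  have hNK : (u : ℚ_[q]) ^ 2 - z * (v : ℚ_[q]) ^ 2 = D * (k : ℚ_[q]) ^ 2 := by exact_mod_cast hN
  have haa : a' * a = z * (v : ℚ_[q]) ^ 2 := by
    rw [ha, ha']
    linear_combination hNK - (k : ℚ_[q]) ^ 2 * hρ
  have hzv : (z : ℚ_[q]) * (v : ℚ_[q]) ^ 2 ≠ 0 := mul_ne_zero hz0 (pow_ne_zero 2 hv0)
  have haa0 : a' * a ≠ 0 := by rw [haa]; exact hzv
  have ha0 : a ≠ 0 := right_ne_zero_of_mul haa0
  have ha'0 : a' ≠ 0 := left_ne_zero_of_mul haa0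
  have va : a.valuation = 0 := PV_val_of_norm ha0 hρn
  have va' : a'.valuation = 1 + 2 * ν := by
    have h1 := congrArg Padic.valuation haa
    rw [Padic.valuation_mul ha'0 ha0, Padic.valuation_mul hz0 (pow_ne_zero 2 hv0), va, vz,
      Padic.valuation_pow] at h1
    push_cast at h1
    linarith
  set σ : ℚ_[q] := a / (z * v) with hσ
  set σ' : ℚ_[q] := a' / (z * v) with hσ'
  have hzv0 : (z : ℚ_[q]) * v ≠ 0 := mul_ne_zero hz0 hv0
  have hσ0 : σ ≠ 0 := div_ne_zero ha0 hzv0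
  have hσ'0 : σ' ≠ 0 := div_ne_zero ha'0 hzv0
  have vσ : σ.valuation = -1 - ν := by
    have h1 : σ * (z * v) = a := div_mul_cancel₀ a hzv0
    have h2 := congrArg Padic.valuation h1
    rw [Padic.valuation_mul hσ0 hzv0, Padic.valuation_mul hz0 hv0, va, vz] at h2
    linarith
  have vσ' : σ'.valuation = ν := by
    have h1 : σ' * (z * v) = a' := div_mul_cancel₀ a' hzv0
    have h2 := congrArg Padic.valuation h1
    rw [Padic.valuation_mul hσ'0 hzv0, Padic.valuation_mul hz0 hv0, va', vz] at h2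
    linarith
  set τ : ℚ := (u : ℚ) / v with hτ
  have hτK : ((τ : ℚ) : ℚ_[q]) = (u : ℚ_[q]) / v := by rw [hτ]; push_cast; rfl
  have hquad : ∀ s : ℚ_[q], (s = σ ∨ s = σ') → 1 + z * s ^ 2 = (τ : ℚ_[q]) * (2 * s) := by
    intro s hs
    have hsum : a + a' = 2 * u := by rw [ha, ha']; ring
    rw [hτK]
    rcases hs with rfl | rfl
    · rw [hσ]
      field_simp
      linear_combination -haa + a * hsum
    · rw [hσ']
      field_simp
      linear_combination -haa + a' * hsum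
  -- the values of the polynomials
  have hAB : (ev A τ : ℚ) ≠ 0 := by
    intro hA0
    have hO' : (g : ℚ) * ev B τ = (n : ℚ) * ev A τ := hO
    rw [hA0, mul_zero] at hO'
    have hB0 : ev B τ = 0 := by
      rcases mul_eq_zero.1 hO' with h1 | h1
      · exact absurd (by exact_mod_cast h1) hg0'
      · exact h1
    obtain ⟨r, s, hrs⟩ := hC.cop
    have h1 := congrArg (Polynomial.eval τ) hrs
    rw [eval_add, eval_mul, eval_mul, eval_one] at h1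
    have h2 : (A.map (Int.castRingHom ℚ)).eval τ = 0 := hA0
    have h3 : (B.map (Int.castRingHom ℚ)).eval τ = 0 := hB0
    rw [h2, h3] at h1
    norm_num at h1
  set Aτ : ℚ_[q] := ((ev A τ : ℚ) : ℚ_[q]) with hAτ
  set Bτ : ℚ_[q] := ((ev B τ : ℚ) : ℚ_[q]) with hBτ
  have hA0 : Aτ ≠ 0 := by rw [hAτ]; exact_mod_cast hAB
  have hOK : (g : ℚ_[q]) * Bτ = n * Aτ := by
    have hO' : (g : ℚ) * ev B τ = (n : ℚ) * ev A τ := hO
    rw [hAτ, hBτ]
    exact_mod_cast hO'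
  have heval : ∀ s : ℚ_[q], (s = σ ∨ s = σ') →
      (2 * s) ^ b * (Aτ * ((g : ℚ_[q]) - z * s * n)) =
        g * (((κ : ℚ) : ℚ_[q]) * (Polynomial.aeval s β') ^ (2 * b + 1)) := by
    intro s hs
    have h1 := congrArg (Polynomial.aeval s) hK
    have h2 : ∀ F : ℤ[X], (Polynomial.aeval s) (hev b F (1 + C ((z : ℤ) : ℚ) * X ^ 2) (2 * X)) =
        hev b F (1 + z * s ^ 2) (2 * s) := by
      intro F
      have h3 := PV_hev_map (Polynomial.aeval (R := ℚ) s).toRingHom b F (1 + C ((z : ℤ) : ℚ) * X ^ 2) (2 * X)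
      refine h3.trans ?_
      have e1 : (Polynomial.aeval (R := ℚ) s).toRingHom (1 + C ((z : ℤ) : ℚ) * X ^ 2) =
          1 + z * s ^ 2 := by simp
      have e2 : (Polynomial.aeval (R := ℚ) s).toRingHom (2 * X) = 2 * s := by
        show (Polynomial.aeval (R := ℚ) s) (2 * X) = 2 * s
        rw [map_mul, aeval_X, map_ofNat]
      rw [e1, e2]
    rw [map_sub, map_mul, map_mul, h2 A, h2 B, hquad s hs, PV_hev_val b A hC.dA τ (2 * s),
      PV_hev_val b B hC.dB τ (2 * s)] at h1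
    have e3 : (Polynomial.aeval s) (C ((z : ℤ) : ℚ) : ℚ[X]) = ((z : ℤ) : ℚ_[q]) := by simp
    have e4 : (Polynomial.aeval s) (C κ * β' ^ (2 * b + 1)) =
        ((κ : ℚ) : ℚ_[q]) * (Polynomial.aeval s β') ^ (2 * b + 1) := by simp
    rw [e3, aeval_X, e4, ← hAτ, ← hBτ] at h1
    rw [← h1]
    linear_combination ((2 * s) ^ b * z * s) * hOK
  -- g - z σ' n is a unit
  have hdu : ‖(g : ℚ_[q]) - z * σ' * n‖ = 1 := by
    have e1 : (z : ℚ_[q]) * σ' = a' / v := by rw [hσ']; field_simp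
    have e2 : ‖a'‖ = ‖(z : ℚ_[q])‖ * ‖(v : ℚ_[q])‖ ^ 2 := by
      have h1 : ‖a' * a‖ = ‖(z : ℚ_[q]) * (v : ℚ_[q]) ^ 2‖ := by rw [haa]
      rw [norm_mul, norm_mul, norm_pow, hρn, mul_one] at h1
      exact h1
    have hvn : 0 < ‖(v : ℚ_[q])‖ := norm_pos_iff.2 hv0
    have e3 : ‖(z : ℚ_[q]) * σ'‖ = ‖(z : ℚ_[q])‖ * ‖(v : ℚ_[q])‖ := by
      rw [e1, norm_div, e2]
      field_simp
    have hz1 : ‖(z : ℚ_[q])‖ < 1 := by
      rw [Padic.norm_eq_zpow_neg_valuation hz0, vz]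
      have hq1 : (1 : ℝ) < q := by exact_mod_cast hq.one_lt
      rw [zpow_neg, zpow_one]
      exact inv_lt_one_of_one_lt₀ hq1
    have hv1 : ‖(v : ℚ_[q])‖ ≤ 1 := Padic.norm_int_le_one v
    have hn1 : ‖(n : ℚ_[q])‖ ≤ 1 := Padic.norm_int_le_one n
    have e4 : ‖(z : ℚ_[q]) * σ' * n‖ < 1 := by
      rw [norm_mul, e3]
      have h1 : ‖(z : ℚ_[q])‖ * ‖(v : ℚ_[q])‖ ≤ ‖(z : ℚ_[q])‖ :=
        mul_le_of_le_one_right (norm_nonneg _) hv1
      have h2 : ‖(z : ℚ_[q])‖ * ‖(v : ℚ_[q])‖ * ‖(n : ℚ_[q])‖ ≤ ‖(z : ℚ_[q])‖ * ‖(v : ℚ_[q])‖ :=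
        mul_le_of_le_one_right (by positivity) hn1
      linarith
    have hgn := hnormint g hg
    have h5 : ‖(g : ℚ_[q]) - z * σ' * n‖ ≤ 1 := by
      have h6 := Padic.nonarchimedean (g : ℚ_[q]) (-((z : ℚ_[q]) * σ' * (n : ℚ_[q])))
      rw [norm_neg, hgn, ← sub_eq_add_neg] at h6
      exact h6.trans (max_le le_rfl e4.le)
    by_contra h7
    have h8 := lt_of_le_of_ne h5 h7
    have h9 := Padic.nonarchimedean ((g : ℚ_[q]) - (z : ℚ_[q]) * σ' * (n : ℚ_[q])) ((z : ℚ_[q]) * σ' * (n : ℚ_[q]))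
    rw [sub_add_cancel, hgn] at h9
    have h10 := max_lt h8 e4
    linarith
  have hd'0 : (g : ℚ_[q]) - z * σ' * n ≠ 0 := by
    intro h
    rw [h, norm_zero] at hdu
    norm_num at hdu
  have vd' : ((g : ℚ_[q]) - z * σ' * n).valuation = 0 := PV_val_of_norm hd'0 hdu
  have hEK : (v : ℚ_[q]) * ((g : ℚ_[q]) ^ 2 + z * n ^ 2) - 2 * u * g * n = 2 * z ^ d * k ^ 2 := by
    exact_mod_cast hE
  have hprod : (((g : ℚ_[q]) - z * σ * n) * ((g : ℚ_[q]) - z * σ' * n)) * v = 2 * z ^ d * k ^ 2 := by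
    have hsum : a + a' = 2 * u := by rw [ha, ha']; ring
    have e1 : (z : ℚ_[q]) * σ = a / v := by rw [hσ]; field_simp
    have e2 : (z : ℚ_[q]) * σ' = a' / v := by rw [hσ']; field_simp
    rw [e1, e2, ← hEK]
    field_simp
    linear_combination (n : ℚ_[q]) ^ 2 * haa - g * n * v * hsum
  have hrhs0 : (2 : ℚ_[q]) * z ^ d * k ^ 2 ≠ 0 :=
    mul_ne_zero (mul_ne_zero h20 (pow_ne_zero _ hz0)) (pow_ne_zero _ hk0)
  have hprod0 := hrhs0
  rw [← hprod] at hprod0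
  have hdd0 : ((g : ℚ_[q]) - z * σ * n) * ((g : ℚ_[q]) - z * σ' * n) ≠ 0 :=
    left_ne_zero_of_mul hprod0
  have hd0 : (g : ℚ_[q]) - z * σ * n ≠ 0 := left_ne_zero_of_mul hdd0
  have vd : ((g : ℚ_[q]) - z * σ * n).valuation = d - ν := by
    have h1 := congrArg Padic.valuation hprod
    rw [Padic.valuation_mul hdd0 hv0, Padic.valuation_mul hd0 hd'0,
      Padic.valuation_mul (mul_ne_zero h20 (pow_ne_zero _ hz0)) (pow_ne_zero _ hk0),
      Padic.valuation_mul h20 (pow_ne_zero _ hz0), Padic.valuation_pow, Padic.valuation_pow,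
      v2, vz, vk, vd'] at h1
    push_cast at h1
    linarith
  -- compare valuations
  have hval : ∀ s : ℚ_[q], (s = σ ∨ s = σ') → s ≠ 0 → (g : ℚ_[q]) - z * s * n ≠ 0 →
      ∃ β : ℤ, (b : ℤ) * s.valuation + (Aτ.valuation + ((g : ℚ_[q]) - z * s * n).valuation) =
        ((κ : ℚ) : ℚ_[q]).valuation + (2 * b + 1) * β := by
    intro s hs hs0 hds0
    have h1 := heval s hs
    have hL0 : (2 * s) ^ b * (Aτ * ((g : ℚ_[q]) - z * s * n)) ≠ 0 :=
      mul_ne_zero (pow_ne_zero _ (mul_ne_zero h20 hs0)) (mul_ne_zero hA0 hds0)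
    have hR0 := hL0
    rw [h1] at hR0
    have hR1 : ((κ : ℚ) : ℚ_[q]) * (Polynomial.aeval s β') ^ (2 * b + 1) ≠ 0 :=
      right_ne_zero_of_mul hR0
    have hκ0 : ((κ : ℚ) : ℚ_[q]) ≠ 0 := left_ne_zero_of_mul hR1
    have hβ0 : (Polynomial.aeval s β') ^ (2 * b + 1) ≠ 0 := right_ne_zero_of_mul hR1
    refine ⟨((Polynomial.aeval s) β').valuation, ?_⟩
    have h2 := congrArg Padic.valuation h1
    rw [Padic.valuation_mul (pow_ne_zero _ (mul_ne_zero h20 hs0)) (mul_ne_zero hA0 hds0),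
      Padic.valuation_pow, Padic.valuation_mul h20 hs0, Padic.valuation_mul hA0 hds0,
      Padic.valuation_mul hg0 hR1, Padic.valuation_mul hκ0 hβ0, Padic.valuation_pow, v2, vg] at h2
    push_cast at h2
    linarith
  obtain ⟨β₁, hβ₁⟩ := hval σ (Or.inl rfl) hσ0 hd0
  obtain ⟨β₂, hβ₂⟩ := hval σ' (Or.inr rfl) hσ'0 hd'0
  rw [vσ, vd] at hβ₁
  rw [vσ', vd'] at hβ₂
  have hfin : (2 * (d : ℤ) + 1) = (2 * b + 1) * (2 * (β₁ - β₂ + ν) + 1) := by
    linear_combination 2 * (hβ₁ - hβ₂)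
  have hdvd : ((2 * b + 1 : ℕ) : ℤ) ∣ ((2 * d + 1 : ℕ) : ℤ) := by
    refine ⟨2 * (β₁ - β₂ + ν) + 1, ?_⟩
    push_cast
    exact hfin
  exact Int.natCast_dvd_natCast.1 hdvd

end Pool.Agent.helper27.TD
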